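import Pool.Agent.W795.AZ.Sharp

/-!
The Aharoni–Zerbib conjecture for fractional covers: every `r`-graph `H` has a fractional cover by
`(r-1)`-sets of total weight at most `(r+1)/2` times the largest number of edges that pairwise
share fewer than `r-1` vertices, and the constant `(r+1)/2` is attained for every `r`.
-/

set_option autoImplicit false

open Finset

namespace Pool.Agent.Results.MP_897ce6_co.FractionalCovers

open Pool.Agent.W795.AZ

/-- First part: if `H` is a finite set of `r`-sets, `r ≥ 2`, and every subfamily of `H` whose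
members pairwise share fewer than `r-1` elements has at most `ν` members, then there is a weight
`w ≥ 0` on the `(r-1)`-sets such that the `(r-1)`-subsets of each edge have total weight at least
`1` and the whole weight is at most `(r+1)/2 * ν`. Second part: for the set of all `r`-subsets of
`r+1` points every such subfamily has at most one member, and every such weight has total at least
`(r+1)/2`. -/
theorem result :
    (∀ (V : Type) [DecidableEq V] (r : ℕ), 2 ≤ r →
      ∀ H : Finset (Finset V), (∀ e ∈ H, e.card = r) →
      ∀ ν : ℕ, (∀ M ⊆ H, IsPacking (r - 1) M → M.card ≤ ν) →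
      ∃ w : Finset V → ℝ, (∀ g, 0 ≤ w g) ∧
        (∀ e ∈ H, 1 ≤ ∑ g ∈ e.powersetCard (r - 1), w g) ∧
        ∑ g ∈ facets r H, w g ≤ ((r : ℝ) + 1) / 2 * ν) ∧
    (∀ r : ℕ, 2 ≤ r →
      (∀ M ⊆ (univ : Finset (Fin (r + 1))).powersetCard r, IsPacking (r - 1) M → M.card ≤ 1) ∧
      ∀ w : Finset (Fin (r + 1)) → ℝ, (∀ g, 0 ≤ w g) →
        (∀ e ∈ (univ : Finset (Fin (r + 1))).powersetCard r,
          1 ≤ ∑ g ∈ e.powersetCard (r - 1), w g) →
        ((r : ℝ) + 1) / 2 ≤
          ∑ g ∈ facets r ((univ : Finset (Fin (r + 1))).powersetCard r), w g) := by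
  refine ⟨fun V _ r hr H hH ν hν => cover_exists hr H hH ν hν, fun r hr => ⟨?_, ?_⟩⟩
  · exact fun M hM hp => complete_packing hr M hM hp
  · exact fun w _ hcov => complete_cover hr w hcov

end Pool.Agent.Results.MP_897ce6_co.FractionalCovers
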